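import Mathlib

set_option autoImplicit false

namespace Pool.Agent.Results.MP_5e9fbd_co.SmallFamilies

/-- number of the pair `{i, j}`, `i ≠ j`, in the list of the pairs `{0,1}, {0,2}, {1,2}, {0,3}, …` -/
def idx (i j : ℕ) : ℕ := if i < j then j * (j - 1) / 2 + i else i * (i - 1) / 2 + j

/-- the graph on `Fin k` whose edge set is given by the binary digits of `c` -/
def gr (k c : ℕ) : SimpleGraph (Fin k) where
  Adj i j := i ≠ j ∧ c.testBit (idx i j) = true
  symm := ⟨fun i j h => ⟨h.1.symm, by
    have h1 := h.2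
    have h2 : i.val ≠ j.val := fun h' => h.1 (Fin.ext h')
    unfold idx at h1 ⊢
    rcases lt_or_gt_of_ne h2 with h3 | h3
    · rw [if_pos h3] at h1
      rw [if_neg (by omega)]
      exact h1
    · rw [if_neg (by omega)] at h1
      rw [if_pos h3]
      exact h1⟩⟩
  loopless := ⟨fun i h => h.1 rfl⟩

lemma gr_inf (k c d : ℕ) : gr k c ⊓ gr k d = gr k (c &&& d) := by
  ext i j
  simp only [SimpleGraph.inf_adj, gr, Nat.testBit_and, Bool.and_eq_true]
  tauto

/-- adjacency as a boolean -/
def adjB (c : ℕ) (i j : ℕ) : Bool := !(i == j) && c.testBit (idx i j)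

lemma adjB_spec {k c : ℕ} {i j : Fin k} (h : adjB c i j = true) : (gr k c).Adj i j := by
  unfold adjB at h
  rw [Bool.and_eq_true] at h
  refine ⟨fun h' => ?_, h.2⟩
  have := h.1
  rw [h'] at this
  simp at this

/-- `v` is at distance at most two from `a` -/
def near (k c : ℕ) (a v : Fin k) : Bool :=
  (a == v) || adjB c a v || (List.finRange k).any fun w => adjB c a w && adjB c w v

lemma near_spec {k c : ℕ} {a v : Fin k} (h : near k c a v = true) : (gr k c).Reachable a v := by
  unfold near at h
  rw [Bool.or_eq_true, Bool.or_eq_true] at h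
  rcases h with (h | h) | h
  · rw [beq_iff_eq] at h
    rw [h]
  · exact (adjB_spec h).reachable
  · rw [List.any_eq_true] at h
    obtain ⟨w, -, hw⟩ := h
    rw [Bool.and_eq_true] at hw
    exact (adjB_spec hw.1).reachable.trans (adjB_spec hw.2).reachable

/-- two balls of radius two cover all vertices -/
def chk (k c : ℕ) : Bool :=
  (List.finRange k).any fun a => (List.finRange k).any fun b =>
    (List.finRange k).all fun v => near k c a v || near k c b v

lemma comp_le {k c : ℕ} (h : chk k c = true) : Nat.card (gr k c).ConnectedComponent ≤ 2 := by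
  unfold chk at h
  rw [List.any_eq_true] at h
  obtain ⟨a, -, h⟩ := h
  rw [List.any_eq_true] at h
  obtain ⟨b, -, h⟩ := h
  rw [List.all_eq_true] at h
  have hs : Function.Surjective (fun t : Bool => (gr k c).connectedComponentMk (if t then a else b)) := by
    intro C
    induction C using SimpleGraph.ConnectedComponent.ind with
    | _ v =>
      have hv := h v (List.mem_finRange v)
      rw [Bool.or_eq_true] at hv
      rcases hv with hv | hv
      · exact ⟨true, SimpleGraph.ConnectedComponent.sound (near_spec hv)⟩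
      · exact ⟨false, SimpleGraph.ConnectedComponent.sound (near_spec hv)⟩
  have h1 := Nat.card_le_card_of_surjective _ hs
  have h2 : Nat.card Bool = 2 := by simp
  omega

/-- codes of the members of the family on four vertices (all graphs with at least four edges) -/
def L4 : List ℕ :=
  [15, 23, 27, 29, 30, 31, 39, 43, 45, 46, 47, 51, 53, 54, 55, 57, 58, 59, 60, 61, 62, 63]

/-- codes of the members of the family on five vertices -/
def L5 : List ℕ :=
  [94, 95, 126, 127, 158, 159, 190, 191, 206, 207, 214, 215, 218, 219, 220, 221, 222, 223, 238,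
   239, 246, 247, 250, 251, 252, 253, 254, 255, 318, 319, 350, 351, 374, 375, 380, 381, 382, 383,
   414, 415, 430, 431, 442, 443, 446, 447, 462, 463, 470, 471, 474, 475, 476, 477, 478, 479, 486,
   487, 492, 493, 494, 495, 498, 499, 502, 503, 504, 505, 506, 507, 508, 509, 510, 511, 574, 575,
   606, 607, 630, 631, 636, 637, 638, 639, 670, 671, 686, 687, 698, 699, 702, 703, 718, 719, 726,
   727, 730, 731, 732, 733, 734, 735, 742, 743, 748, 749, 750, 751, 754, 755, 758, 759, 760, 761,
   762, 763, 764, 765, 766, 767, 798, 799, 830, 831, 854, 855, 860, 861, 862, 863, 878, 879, 886,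
   887, 890, 891, 892, 893, 894, 895, 910, 911, 922, 923, 926, 927, 942, 943, 950, 951, 954, 955,
   956, 957, 958, 959, 966, 967, 972, 973, 974, 975, 978, 979, 982, 983, 984, 985, 986, 987, 988,
   989, 990, 991, 998, 999, 1002, 1003, 1004, 1005, 1006, 1007, 1010, 1011, 1012, 1013, 1014,
   1015, 1016, 1017, 1018, 1019, 1020, 1021, 1022, 1023]

/-- table of the graphs on four vertices with at most two components -/
def T4 : ℕ := 18446744069414518504

/-- table of the graphs on five vertices with at most two components -/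
def T5 : ℕ := 179769313486231590772930519078902473361797697894230657273430081157726007791066530760342096761681665783834506618694811892724171006347363505781045109603506244431291667224084977249649779258886900763889612106269227233875525830196583874676448986507110834364573933772505946686108970060308073659862758003360133605376

lemma t4 : ∀ c < 64, T4.testBit c = true → chk 4 c = true := by decide +kernel
lemma t5 : ∀ c < 1024, T5.testBit c = true → chk 5 c = true := by decide +kernel

lemma p4 : ∀ c ∈ L4, ∀ d ∈ L4, T4.testBit (c &&& d) = true := by decide +kernel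
lemma p5 : ∀ c ∈ L5, ∀ d ∈ L5, T5.testBit (c &&& d) = true := by decide +kernel

lemma b4 : ∀ c ∈ L4, c < 2 ^ 6 := by decide +kernel
lemma b5 : ∀ c ∈ L5, c < 2 ^ 10 := by decide +kernel

lemma n4 : L4.Nodup ∧ L4.length = 22 := by decide +kernel
lemma n5 : L5.Nodup ∧ L5.length = 196 := by decide +kernel

lemma i4 : ∀ t < 6, ∃ i j : Fin 4, i ≠ j ∧ idx i j = t := by decide +kernel
lemma i5 : ∀ t < 10, ∃ i j : Fin 5, i ≠ j ∧ idx i j = t := by decide +kernel

lemma gr_inj {k m c d : ℕ} (hi : ∀ t < m, ∃ i j : Fin k, i ≠ j ∧ idx i j = t) (hc : c < 2 ^ m)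
    (hd : d < 2 ^ m) (h : gr k c = gr k d) : c = d := by
  apply Nat.eq_of_testBit_eq
  intro t
  rcases lt_or_ge t m with ht | ht
  · obtain ⟨i, j, hij, ht'⟩ := hi t ht
    have h1 : (gr k c).Adj i j ↔ (gr k d).Adj i j := by rw [h]
    simp only [gr, ne_eq, hij, not_false_eq_true, true_and, ht'] at h1
    rcases hb : c.testBit t with _ | _ <;> rcases hb' : d.testBit t with _ | _ <;>
      simp_all
  · rw [Nat.testBit_lt_two_pow (lt_of_lt_of_le hc (Nat.pow_le_pow_right (by norm_num) ht)),
      Nat.testBit_lt_two_pow (lt_of_lt_of_le hd (Nat.pow_le_pow_right (by norm_num) ht))]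

open Classical in
/-- the family of graphs with codes in `L` -/
noncomputable def fam (k : ℕ) (L : List ℕ) : Finset (SimpleGraph (Fin k)) :=
  L.toFinset.image (gr k)

lemma fam_card {k m : ℕ} {L : List ℕ} (hi : ∀ t < m, ∃ i j : Fin k, i ≠ j ∧ idx i j = t)
    (hb : ∀ c ∈ L, c < 2 ^ m) (hn : L.Nodup) : (fam k L).card = L.length := by
  classical
  unfold fam
  rw [Finset.card_image_of_injOn, List.toFinset_card_of_nodup hn]
  intro c hc d hd h
  exact gr_inj hi (hb c (by simpa using hc)) (hb d (by simpa using hd)) h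

lemma fam_prop {k M T : ℕ} {L : List ℕ} (ht : ∀ c < M, T.testBit c = true → chk k c = true)
    (hM : ∀ c ∈ L, c < M) (hp : ∀ c ∈ L, ∀ d ∈ L, T.testBit (c &&& d) = true) :
    ∀ G ∈ fam k L, ∀ H ∈ fam k L, Nat.card (G ⊓ H).ConnectedComponent ≤ 2 := by
  classical
  intro G hG H hH
  unfold fam at hG hH
  rw [Finset.mem_image] at hG hH
  obtain ⟨c, hc, rfl⟩ := hG
  obtain ⟨d, hd, rfl⟩ := hH
  rw [List.mem_toFinset] at hc hd
  rw [gr_inf]
  exact comp_le (ht _ (lt_of_le_of_lt Nat.and_le_left (hM c hc)) (hp c hc d hd))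

/-- There is a family of 22 graphs on 4 labelled vertices, and a family of 196 graphs on 5 labelled
vertices, such that the intersection of any two members has at most two connected components.
As `22 > (5/16) * 2^6 = 20` and `196 > (6/32) * 2^10 = 192`, the bound
`|F| ≤ (n+1)/2^n * 2^(n choose 2)` fails for `n = 4` and for `n = 5`. -/
theorem result :
    (∃ F : Finset (SimpleGraph (Fin 4)),
      (∀ G ∈ F, ∀ H ∈ F, Nat.card (G ⊓ H).ConnectedComponent ≤ 2) ∧ F.card = 22) ∧
    (∃ F : Finset (SimpleGraph (Fin 5)),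
      (∀ G ∈ F, ∀ H ∈ F, Nat.card (G ⊓ H).ConnectedComponent ≤ 2) ∧ F.card = 196) ∧
    (∀ n ∈ ({4, 5} : Finset ℕ), ¬ ∀ F : Finset (SimpleGraph (Fin n)),
      (∀ G ∈ F, ∀ H ∈ F, G ≠ H → Nat.card (G ⊓ H).ConnectedComponent ≤ 2) →
        (F.card : ℝ) ≤ ((n : ℝ) + 1) / 2 ^ n * 2 ^ (n.choose 2)) := by
  have h4 : ∀ G ∈ fam 4 L4, ∀ H ∈ fam 4 L4, Nat.card (G ⊓ H).ConnectedComponent ≤ 2 :=
    fam_prop (M := 64) t4 (fun c hc => b4 c hc) p4
  have h5 : ∀ G ∈ fam 5 L5, ∀ H ∈ fam 5 L5, Nat.card (G ⊓ H).ConnectedComponent ≤ 2 :=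
    fam_prop (M := 1024) t5 (fun c hc => b5 c hc) p5
  have c4 : (fam 4 L4).card = 22 := by rw [fam_card i4 b4 n4.1, n4.2]
  have c5 : (fam 5 L5).card = 196 := by rw [fam_card i5 b5 n5.1, n5.2]
  refine ⟨⟨fam 4 L4, h4, c4⟩, ⟨fam 5 L5, h5, c5⟩, ?_⟩
  intro n hn
  simp only [Finset.mem_insert, Finset.mem_singleton] at hn
  rcases hn with rfl | rfl
  · intro h
    have := h (fam 4 L4) (fun G hG H hH _ => h4 G hG H hH)
    rw [c4] at this
    norm_num [Nat.choose] at this
  · intro h
    have := h (fam 5 L5) (fun G hG H hH _ => h5 G hG H hH)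
    rw [c5] at this
    norm_num [Nat.choose] at this

end Pool.Agent.Results.MP_5e9fbd_co.SmallFamilies
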